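import Pool.Agent.helper54.TS.Spec

set_option autoImplicit false

open Polynomial Finset

noncomputable section

namespace Pool.Agent.TS

open Pool.Agent.PSA (IsSalem Indep Fac)

theorem SAM : SAM_stmt := by
  intro p b κ θ κ' θ' i h1 h2 j x h3 n
  induction n with
  | zero => rfl
  | succ n ih =>
    have e1 : orb b κ' θ' j x (n + 1) =
        rho (κ' (j + n + 1)) (θ' (j + n + 1)) (Int.fract (b (j + n) * orb b κ' θ' j x n)) := rfl
    have e2 : orb b κ θ j x (n + 1) =
        rho (κ (j + n + 1)) (θ (j + n + 1)) (Int.fract (b (j + n) * orb b κ θ j x n)) := rfl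
    by_cases hc : (j + n + 1) % p = i % p
    · have h4 := h3 (n + 1) (by omega) (by rw [← Nat.add_assoc]; exact hc)
      obtain ⟨k1, k2⟩ := h2 _ hc
      have e3 : orb b κ θ j x (n + 1) = Int.fract (b (j + n) * orb b κ θ j x n) := by
        rw [e2, k1, k2]
        unfold rho
        rw [if_pos (Int.fract_lt_one _)]
      rw [e1, ih, e3]
      unfold rho
      rw [e3, ← Nat.add_assoc] at h4
      rw [if_pos h4]
    · obtain ⟨k1, k2⟩ := h1 _ hc
      rw [e1, e2, ih, k1, k2]

end Pool.Agent.TS
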